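import Pool.Agent.H636Z.Iso.Main

set_option autoImplicit false

/-- Question 2, positive answer. There are two cocompact Fuchsian groups acting freely and
properly on the upper half plane, both with abelianization the free abelian group of rank six
(closed orientable hyperbolic surfaces of genus three), whose quotients have eigenspaces of the
hyperbolic Laplacian of equal dimension for every real number, and which are not conjugate by any
isometry of the hyperbolic plane, orientation reversing ones included. The statement is the frozen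
statement of Question 1 with rank four replaced by rank six. -/
theorem Pool.Agent.Results.MP_d2545a_gt.AGenusThree.result :
  ∃ Γ₁ Γ₂ : Subgroup (UpperHalfPlane ≃ᵢ UpperHalfPlane),
    (∀ Γ ∈ ({Γ₁, Γ₂} : Set (Subgroup (UpperHalfPlane ≃ᵢ UpperHalfPlane))),
      (∀ γ ∈ Γ, ∃ a b c d : ℝ, a * d - b * c = 1 ∧
          ∀ z : UpperHalfPlane,
            ((γ z : UpperHalfPlane) : ℂ) = ((a : ℂ) * (z : ℂ) + (b : ℂ)) / ((c : ℂ) * (z : ℂ) + (d : ℂ))) ∧
      (∀ γ ∈ Γ, γ ≠ 1 → ∀ z : UpperHalfPlane, γ z ≠ z) ∧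
      (∀ K : Set UpperHalfPlane, IsCompact K →
          {γ : UpperHalfPlane ≃ᵢ UpperHalfPlane | γ ∈ Γ ∧ (⇑γ '' K ∩ K).Nonempty}.Finite) ∧
      (∃ K : Set UpperHalfPlane, IsCompact K ∧ ∀ z : UpperHalfPlane, ∃ γ ∈ Γ, γ z ∈ K) ∧
      Nonempty (Abelianization Γ ≃* Multiplicative (Fin 6 → ℤ))) ∧
    (∀ μ : ℝ,
      Module.rank ℝ (Submodule.span ℝ {f : UpperHalfPlane → ℝ | ∃ F : ℂ → ℝ,
          ContDiffOn ℝ 2 F {w : ℂ | 0 < w.im} ∧
          (∀ z : UpperHalfPlane, f z = F (z : ℂ)) ∧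
          (∀ γ ∈ Γ₁, ∀ z : UpperHalfPlane, f (γ z) = f z) ∧
          ∀ z : UpperHalfPlane,
            -((z : ℂ).im ^ 2 * (iteratedFDeriv ℝ 2 F (z : ℂ) ![1, 1]
              + iteratedFDeriv ℝ 2 F (z : ℂ) ![Complex.I, Complex.I])) = μ * f z})
      =
      Module.rank ℝ (Submodule.span ℝ {f : UpperHalfPlane → ℝ | ∃ F : ℂ → ℝ,
          ContDiffOn ℝ 2 F {w : ℂ | 0 < w.im} ∧
          (∀ z : UpperHalfPlane, f z = F (z : ℂ)) ∧
          (∀ γ ∈ Γ₂, ∀ z : UpperHalfPlane, f (γ z) = f z) ∧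
          ∀ z : UpperHalfPlane,
            -((z : ℂ).im ^ 2 * (iteratedFDeriv ℝ 2 F (z : ℂ) ![1, 1]
              + iteratedFDeriv ℝ 2 F (z : ℂ) ![Complex.I, Complex.I])) = μ * f z})) ∧
    ¬ ∃ φ : UpperHalfPlane ≃ᵢ UpperHalfPlane,
        ∀ γ : UpperHalfPlane ≃ᵢ UpperHalfPlane, γ ∈ Γ₁ ↔ φ * γ * φ⁻¹ ∈ Γ₂ := by
  open Pool.Agent.H636Z.Iso in
  refine ⟨Gam goodA, Gam goodB, ?_, fun μ => ?_, not_conj⟩
  · rintro Γ (rfl | rfl)
    · exact Pool.Agent.H636Z.Iso.Gam_props _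
    · exact Pool.Agent.H636Z.Iso.Gam_props _
  · rw [Pool.Agent.H636Z.Iso.set_eq, Pool.Agent.H636Z.Iso.set_eq, Submodule.span_eq,
      Submodule.span_eq]
    exact Pool.Agent.H636Z.Iso.rank_eq μ
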